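import Pool.Agent.Helper57.ZF.Goals

set_option autoImplicit false

namespace Pool.Agent.Helper64.ZF

open Pool.Agent.Helper57.ZF

theorem HOLD : G_HOLD := by
  intro a α β ha haα hα hβ0 hβ1
  have hα0 : 0 < α := lt_of_lt_of_le ha haα
  have h1α : 0 ≤ 1 - α := by linarith
  have h1β : 0 ≤ 1 - β := by linarith
  have hpq : Real.HolderConjugate (3 : ℝ) (3 / 2 : ℝ) := by
    rw [Real.holderConjugate_iff]
    norm_num
  have key := Real.inner_le_Lp_mul_Lq_of_nonneg (Finset.univ : Finset (Fin 2)) hpq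
    (f := ![α ^ (2 / 3 : ℝ), (1 - α) ^ (2 / 3 : ℝ)])
    (g := ![β ^ (2 / 3 : ℝ), (1 - β) ^ (2 / 3 : ℝ)])
    (by intro i _; fin_cases i <;> simp <;> positivity)
    (by intro i _; fin_cases i <;> simp <;> positivity)
  simp only [Fin.sum_univ_two, Matrix.cons_val_zero, Matrix.cons_val_one] at key
  have e1 : ∀ x : ℝ, 0 ≤ x → (x ^ (2 / 3 : ℝ)) ^ (3 : ℝ) = x ^ 2 := by
    intro x hx
    rw [← Real.rpow_mul hx]
    norm_num
  have e2 : ∀ x : ℝ, 0 ≤ x → (x ^ (2 / 3 : ℝ)) ^ (3 / 2 : ℝ) = x := by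
    intro x hx
    rw [← Real.rpow_mul hx]
    norm_num
  rw [e1 α hα0.le, e1 (1 - α) h1α, e2 β hβ0, e2 (1 - β) h1β] at key
  rw [← Real.mul_rpow hα0.le hβ0, ← Real.mul_rpow h1α h1β] at key
  have e3 : β + (1 - β) = 1 := by ring
  rw [e3, Real.one_rpow, mul_one] at key
  refine key.trans ?_
  have ha1 : a ≤ 1 / 2 := haα.trans hα
  have h3 : (0 : ℝ) ≤ 1 - a / 3 := by linarith
  have h4 : α ^ 2 + (1 - α) ^ 2 ≤ (1 - a / 3) ^ 3 := by
    have h5 : α ^ 2 + (1 - α) ^ 2 ≤ 1 - a := by nlinarith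
    have h6 : 1 - a ≤ (1 - a / 3) ^ 3 := by nlinarith [sq_nonneg a, mul_nonneg ha.le (sq_nonneg a)]
    linarith
  calc (α ^ 2 + (1 - α) ^ 2) ^ (1 / 3 : ℝ) ≤ ((1 - a / 3) ^ 3) ^ (1 / 3 : ℝ) :=
        Real.rpow_le_rpow (by positivity) h4 (by norm_num)
    _ = 1 - a / 3 := by
        rw [← Real.rpow_natCast, ← Real.rpow_mul h3]
        norm_num

end Pool.Agent.Helper64.ZF
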